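import Pool.Agent.Helper86.Poly.Goals

/-! # The volume of a simplex -/

set_option autoImplicit false

namespace Pool.Agent.Helper45.Poly

open MeasureTheory Set Pool.Agent.Helper86.Poly

/-- The corner simplex of size `r`. -/
def Dl (d : ℕ) (r : ℝ) : Set (Fin d → ℝ) := {x | (∀ i, 0 ≤ x i) ∧ ∑ i, x i ≤ r}

theorem isClosed_Dl (d : ℕ) (r : ℝ) : IsClosed (Dl d r) := by
  have h : Dl d r = (⋂ i, {x : Fin d → ℝ | 0 ≤ x i}) ∩ {x | ∑ i, x i ≤ r} := by
    ext x
    simp [Dl]
  rw [h]
  refine IsClosed.inter (isClosed_iInter fun i => ?_) ?_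
  · exact isClosed_le continuous_const (continuous_apply i)
  · exact isClosed_le (by fun_prop) continuous_const

theorem measurableSet_Dl (d : ℕ) (r : ℝ) : MeasurableSet (Dl d r) := (isClosed_Dl d r).measurableSet

theorem volume_Dl (d : ℕ) : ∀ r : ℝ, 0 ≤ r →
    volume (Dl d r) = ENNReal.ofReal (r ^ d / d.factorial) := by
  induction d with
  | zero =>
    intro r hr
    have h : Dl 0 r = univ := by
      ext x
      simp [Dl, hr]
    rw [h]
    simp [volume_pi]
  | succ d ih =>
    intro r hr
    have hmp := (volume_preserving_piFinSuccAbove (fun _ : Fin (d + 1) => ℝ) 0).symm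
    have hm : MeasurableSet (Dl (d + 1) r) := measurableSet_Dl _ _
    rw [← hmp.measure_preimage hm.nullMeasurableSet]
    rw [Measure.volume_eq_prod, Measure.prod_apply (hmp.measurable hm)]
    have hsec : ∀ t : ℝ, volume (Prod.mk t ⁻¹'
        ((MeasurableEquiv.piFinSuccAbove (fun _ : Fin (d + 1) => ℝ) 0).symm ⁻¹' Dl (d + 1) r)) =
        (Icc (0 : ℝ) r).indicator (fun t => ENNReal.ofReal ((r - t) ^ d / d.factorial)) t := by
      intro t
      have h1 : (Prod.mk t ⁻¹'
        ((MeasurableEquiv.piFinSuccAbove (fun _ : Fin (d + 1) => ℝ) 0).symm ⁻¹' Dl (d + 1) r)) =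
        {y : Fin d → ℝ | 0 ≤ t ∧ y ∈ Dl d (r - t)} := by
        ext y
        have e0 : ∀ i, (MeasurableEquiv.piFinSuccAbove (fun _ : Fin (d + 1) => ℝ) 0).symm (t, y) i =
            (Fin.cons t y : Fin (d + 1) → ℝ) i := by
          intro i
          simp [MeasurableEquiv.piFinSuccAbove, Fin.insertNthEquiv, Fin.insertNth_zero']
        simp only [mem_preimage, Dl, mem_setOf_eq, Fin.forall_fin_succ, Fin.sum_univ_succ, e0,
          Fin.cons_zero, Fin.cons_succ]
        constructor
        · rintro ⟨⟨ha, hb⟩, hc⟩
          exact ⟨ha, hb, by linarith⟩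
        · rintro ⟨ha, hb, hc⟩
          exact ⟨⟨ha, hb⟩, by linarith⟩
      rw [h1]
      by_cases ht : t ∈ Icc (0 : ℝ) r
      · rw [indicator_of_mem ht]
        have : {y : Fin d → ℝ | 0 ≤ t ∧ y ∈ Dl d (r - t)} = Dl d (r - t) := by
          ext y
          simp [ht.1]
        rw [this, ih _ (by linarith [ht.2])]
      · rw [indicator_of_notMem ht]
        have : {y : Fin d → ℝ | 0 ≤ t ∧ y ∈ Dl d (r - t)} = ∅ := by
          ext y
          simp only [mem_setOf_eq, mem_empty_iff_false, iff_false]
          rintro ⟨ha, hb, hc⟩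
          apply ht
          refine ⟨ha, ?_⟩
          have : 0 ≤ ∑ i, y i := Finset.sum_nonneg fun i _ => hb i
          linarith
        rw [this, measure_empty]
    simp_rw [hsec]
    rw [lintegral_indicator measurableSet_Icc]
    rw [← ofReal_integral_eq_lintegral_ofReal]
    · congr 1
      rw [integral_Icc_eq_integral_Ioc, ← intervalIntegral.integral_of_le hr]
      rw [intervalIntegral.integral_div]
      have h2 : ∫ t in (0 : ℝ)..r, (r - t) ^ d = r ^ (d + 1) / (d + 1) := by
        have := intervalIntegral.integral_comp_sub_left (a := 0) (b := r) (fun t : ℝ => t ^ d) r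
        rw [this]
        simp
      rw [h2, Nat.factorial_succ]
      push_cast
      field_simp
    · apply Continuous.integrableOn_Icc
      fun_prop
    · filter_upwards [ae_restrict_mem measurableSet_Icc] with t ht
      have : 0 ≤ r - t := by linarith [ht.2]
      positivity

theorem convex_Dl (d : ℕ) (r : ℝ) : Convex ℝ (Dl d r) := by
  intro x hx y hy a b ha hb hab
  refine ⟨fun i => ?_, ?_⟩
  · have := hx.1 i
    have := hy.1 i
    simp only [Pi.add_apply, Pi.smul_apply, smul_eq_mul]
    positivity
  · simp only [Pi.add_apply, Pi.smul_apply, smul_eq_mul, Finset.sum_add_distrib, ← Finset.mul_sum]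
    have h1 := mul_le_mul_of_nonneg_left hx.2 ha
    have h2 := mul_le_mul_of_nonneg_left hy.2 hb
    have h3 : a * r + b * r = r := by rw [← add_mul, hab, one_mul]
    linarith

/-- The hull of `d + 1` points of `ℝᵈ`. -/
theorem hull_eq {d : ℕ} (q : Fin (d + 1) → Fin d → ℝ) :
    convexHull ℝ (range q) = (fun y => q 0 + y) ''
      (Matrix.toLin' (Matrix.of fun i j : Fin d => q i.succ j - q 0 j).transpose '' Dl d 1) := by
  have happ : ∀ x : Fin d → ℝ,
      Matrix.toLin' (Matrix.of fun i j : Fin d => q i.succ j - q 0 j).transpose x =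
        ∑ i, x i • (q i.succ - q 0) := by
    intro x
    ext j
    simp only [Matrix.toLin'_apply, Matrix.mulVec, dotProduct, Matrix.transpose_apply,
      Matrix.of_apply, Finset.sum_apply, Pi.smul_apply, Pi.sub_apply, smul_eq_mul]
    exact Finset.sum_congr rfl fun i _ => mul_comm _ _
  apply Subset.antisymm
  · apply convexHull_min
    · rintro _ ⟨i, rfl⟩
      refine Fin.cases ?_ (fun i => ?_) i
      · exact ⟨0, ⟨0, ⟨fun i => le_rfl, by simp⟩, by simp⟩, by simp⟩
      · refine ⟨q i.succ - q 0, ⟨Pi.single i 1, ⟨fun j => ?_, by simp⟩, ?_⟩, by simp⟩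
        · by_cases h : j = i
          · subst h
            simp
          · simp [h]
        · rw [happ, Finset.sum_eq_single i]
          · simp
          · intro j _ hj
            simp [hj]
          · simp
    · exact (((convex_Dl d 1).linear_image _).translate _)
  · rintro _ ⟨_, ⟨x, hx, rfl⟩, rfl⟩
    rw [happ]
    have hw : ∑ i, (Fin.cons (1 - ∑ i, x i) x : Fin (d + 1) → ℝ) i = 1 := by
      rw [Fin.sum_univ_succ]
      simp
    have h0 : ∀ i, 0 ≤ (Fin.cons (1 - ∑ i, x i) x : Fin (d + 1) → ℝ) i := by
      intro i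
      refine Fin.cases ?_ (fun i => ?_) i
      · simp only [Fin.cons_zero]
        linarith [hx.2]
      · simpa using hx.1 i
    have := (convex_convexHull ℝ (range q)).sum_mem (t := Finset.univ) (fun i _ => h0 i) hw
      (fun i _ => subset_convexHull ℝ _ (mem_range_self i))
    convert this using 1
    rw [Fin.sum_univ_succ]
    simp only [Fin.cons_zero, Fin.cons_succ, smul_sub, Finset.sum_sub_distrib, sub_smul, one_smul,
      Finset.sum_smul]
    abel

theorem PkSV.thm : G_SV := by
  intro d p
  set q : Fin (d + 1) → Fin d → ℝ := fun i j => p i j with hq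
  have himg : convexHull ℝ (range p) =
      (WithLp.ofLp : E d → (Fin d → ℝ)) ⁻¹' (convexHull ℝ (range q)) := by
    have h1 : (WithLp.linearEquiv 2 ℝ (Fin d → ℝ)) '' convexHull ℝ (range p) =
        convexHull ℝ (range q) := by
      have := LinearMap.image_convexHull
        (WithLp.linearEquiv 2 ℝ (Fin d → ℝ)).toLinearMap (range p)
      rw [← range_comp] at this
      exact this
    rw [← h1]
    ext x
    simp only [mem_preimage, mem_image]
    constructor
    · intro hx
      exact ⟨x, hx, rfl⟩
    · rintro ⟨y, hy, e⟩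
      have : y = x := by
        apply (WithLp.linearEquiv 2 ℝ (Fin d → ℝ)).injective
        exact e
      rw [← this]
      exact hy
  have hmeas : MeasurableSet (convexHull ℝ (range q)) :=
    ((finite_range q).isCompact_convexHull ℝ).isClosed.measurableSet
  rw [himg, (PiLp.volume_preserving_ofLp (Fin d)).measure_preimage hmeas.nullMeasurableSet,
    hull_eq q, image_add_left, measure_preimage_add, Measure.addHaar_image_linearMap,
    volume_Dl d 1 zero_le_one, LinearMap.det_toLin', Matrix.det_transpose, one_pow]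
  rw [mul_left_comm, ← ENNReal.ofReal_natCast, ← ENNReal.ofReal_mul (by positivity)]
  rw [mul_one_div_cancel (by positivity), ENNReal.ofReal_one, mul_one]

end Pool.Agent.Helper45.Poly
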